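import Pool.Agent.Y501.SY.StmS
import Pool.Agent.Y487.SY.Patch

/-!
# Project SYS, job SYS-PATCH2: patching a closed form along a chart, general singular sets
-/

set_option autoImplicit false

open Set Filter Topology MeasureTheory
open scoped Manifold ContDiff

noncomputable section

namespace Pool.Agent.Y949.SY

open Pool.Agent.Y501.SY
open Pool.Agent.Y455.SY (A B AB BA)
open Pool.Agent.Y487.SY (patch_of_mem patch_of_notMem comp_chain)

theorem t_PATCH2 : S_PATCH2 := by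
  intro d X _ _ _ _ x₀ O K K' N' s' σ hO hOs hK' hKK hN' hN'O hkN' hs' hds' hs'σ hσ hdσ
  have hcs : ContMDiffOn (𝓡 d) (𝓡 d) ∞ (chartAt (E d) x₀) (chartAt (E d) x₀).source :=
    contMDiffOn_chart
  have himt : chartAt (E d) x₀ '' O ⊆ (chartAt (E d) x₀).target := by
    rintro _ ⟨x, hx, rfl⟩
    exact (chartAt (E d) x₀).map_source (hOs hx)
  have himg : IsOpen (chartAt (E d) x₀ '' (O ∩ K'ᶜ)) :=
    (chartAt (E d) x₀).isOpen_image_of_subset_source (hO.inter hK'.isOpen_compl)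
      (inter_subset_left.trans hOs)
  have hsub : chartAt (E d) x₀ '' (O ∩ K'ᶜ) ⊆
      (chartAt (E d) x₀ '' O) \ (chartAt (E d) x₀ '' (K' ∩ O)) := by
    rintro _ ⟨x, hx, rfl⟩
    refine ⟨⟨x, hx.1, rfl⟩, ?_⟩
    rintro ⟨y, hy, hyx⟩
    have hyx' : y = x := (chartAt (E d) x₀).injOn (hOs hy.2) (hOs hx.1) hyx
    exact hx.2 (hyx' ▸ hy.1)
  have hsymm : ∀ p ∈ chartAt (E d) x₀ '' O, (chartAt (E d) x₀).symm p ∈ O := by
    rintro _ ⟨x, hx, rfl⟩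
    rw [(chartAt (E d) x₀).left_inv (hOs hx)]
    exact hx
  -- the compact set of `X` corresponding to `N'`
  obtain ⟨M, hM⟩ : ∃ M, M = (chartAt (E d) x₀).symm '' N' := ⟨_, rfl⟩
  have hMc : IsCompact M := by
    rw [hM]
    exact hN'.image_of_continuousOn
      ((chartAt (E d) x₀).continuousOn_symm.mono (hN'O.trans himt))
  have hMcl : IsClosed M := hMc.isClosed
  have hMO : M ⊆ O := by
    rw [hM]
    rintro _ ⟨p, hp, rfl⟩
    exact hsymm p (hN'O hp)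
  have hMN : ∀ x ∈ O, x ∉ M → chartAt (E d) x₀ x ∉ N' := by
    intro x hx hxM h
    apply hxM
    rw [hM]
    exact ⟨_, h, (chartAt (E d) x₀).left_inv (hOs hx)⟩
  -- fourth claim
  have h4 : ∀ p ∈ chartAt (E d) x₀ '' O,
      pb (chartAt (E d) x₀).symm (patch x₀ O s' σ) p = s' p := by
    intro p hp
    unfold pb
    rw [patch_of_mem x₀ O s' σ (hsymm p hp), (chartAt (E d) x₀).right_inv (himt hp)]
    ext v
    show s' p (fun i => B x₀ p (A x₀ p (v i))) = s' p v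
    congr 1
    funext i
    exact BA x₀ (himt hp) (v i)
  -- third claim
  have h3a : ∀ p ∈ chartAt (E d) x₀ '' O, p ∉ N' →
      patch x₀ O s' σ ((chartAt (E d) x₀).symm p) = σ ((chartAt (E d) x₀).symm p) := by
    intro p hp hpN
    rw [patch_of_mem x₀ O s' σ (hsymm p hp), (chartAt (E d) x₀).right_inv (himt hp),
      hs'σ p ⟨hp, hpN⟩]
    ext v
    show (σ ((chartAt (E d) x₀).symm p) : (E d) [⋀^Fin 2]→L[ℝ] ℝ)
      (fun i => A x₀ p (B x₀ p (v i))) = (σ ((chartAt (E d) x₀).symm p) :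
        (E d) [⋀^Fin 2]→L[ℝ] ℝ) v
    congr 1
    funext i
    exact AB x₀ (himt hp) (v i)
  have h3 : ∀ x, x ∉ O ∨ chartAt (E d) x₀ x ∉ N' → patch x₀ O s' σ x = σ x := by
    intro x hx
    by_cases hxO : x ∈ O
    · have hxN : chartAt (E d) x₀ x ∉ N' := by
        rcases hx with h | h
        · exact absurd hxO h
        · exact h
      have h := h3a (chartAt (E d) x₀ x) ⟨x, hxO, rfl⟩ hxN
      rw [(chartAt (E d) x₀).left_inv (hOs hxO)] at h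
      exact h
    · exact patch_of_notMem x₀ O s' σ hxO
  -- near the points which are sent into `O`
  have keyA : ∀ (U : Set (E d)) (φ : E d → X), IsOpen U → ContMDiffOn (𝓡 d) (𝓡 d) ∞ φ U →
      ∀ p₀ ∈ U, φ p₀ ∈ O → ContDiffAt ℝ ∞ (chartAt (E d) x₀ ∘ φ) p₀ ∧
        pb φ (patch x₀ O s' σ) =ᶠ[𝓝 p₀] fun p => (s' ((chartAt (E d) x₀ ∘ φ) p)).compContinuousLinearMap
          (fderiv ℝ (chartAt (E d) x₀ ∘ φ) p) := by
    intro U φ hU hφ p₀ hp₀ hpO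
    have hU' : IsOpen (U ∩ φ ⁻¹' O) := hφ.continuousOn.isOpen_inter_preimage hU hO
    have hψm : ContMDiffOn (𝓡 d) (𝓡 d) ∞ (chartAt (E d) x₀ ∘ φ) (U ∩ φ ⁻¹' O) :=
      hcs.comp (hφ.mono inter_subset_left) fun p hp => hOs hp.2
    have hψ : ContDiffOn ℝ ∞ (chartAt (E d) x₀ ∘ φ) (U ∩ φ ⁻¹' O) :=
      contMDiffOn_iff_contDiffOn.1 hψm
    refine ⟨hψ.contDiffAt (hU'.mem_nhds ⟨hp₀, hpO⟩), ?_⟩
    filter_upwards [hU'.mem_nhds ⟨hp₀, hpO⟩] with p hp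
    have hφp : MDifferentiableAt (𝓡 d) (𝓡 d) φ p :=
      ((hφ p hp.1).contMDiffAt (hU.mem_nhds hp.1)).mdifferentiableAt (by simp)
    have hcp : MDifferentiableAt (𝓡 d) (𝓡 d) (chartAt (E d) x₀) (φ p) :=
      ((hcs _ (hOs hp.2)).contMDiffAt
        ((chartAt (E d) x₀).open_source.mem_nhds (hOs hp.2))).mdifferentiableAt (by simp)
    rw [← comp_chain (s' ((chartAt (E d) x₀ ∘ φ) p)) hcp hφp]
    unfold pb
    rw [patch_of_mem x₀ O s' σ hp.2]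
    rfl
  -- near the other points
  have keyB : ∀ (U : Set (E d)) (φ : E d → X), IsOpen U → ContMDiffOn (𝓡 d) (𝓡 d) ∞ φ U →
      (∀ p ∈ U, φ p ∉ K') → ∀ p₀ ∈ U, φ p₀ ∉ O → ContDiffAt ℝ ∞ (pb φ σ) p₀ ∧
        extDeriv (pb φ σ) p₀ = pb φ (0 : Form d X 3) p₀ ∧
        pb φ (patch x₀ O s' σ) =ᶠ[𝓝 p₀] pb φ σ := by
    intro U φ hU hφ hφK p₀ hp₀ hpO
    have hU' : IsOpen (U ∩ φ ⁻¹' Mᶜ) :=
      hφ.continuousOn.isOpen_inter_preimage hU hMcl.isOpen_compl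
    have hp₀' : p₀ ∈ U ∩ φ ⁻¹' Mᶜ := ⟨hp₀, fun h => hpO (hMO h)⟩
    have hav : ∀ p ∈ U ∩ φ ⁻¹' Mᶜ, φ p ∉ K := by
      rintro p ⟨hp1, hp2⟩ h
      obtain ⟨h5, h6⟩ := hkN' _ h (hφK p hp1)
      exact hMN _ h5 hp2 h6
    refine ⟨(hσ _ φ hU' (hφ.mono inter_subset_left) hav).contDiffAt (hU'.mem_nhds hp₀'),
      hdσ _ φ hU' (hφ.mono inter_subset_left) hav p₀ hp₀', ?_⟩
    filter_upwards [hU'.mem_nhds hp₀'] with p hp
    unfold pb
    rw [h3 (φ p) ?_]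
    by_cases h : φ p ∈ O
    · exact Or.inr (hMN _ h hp.2)
    · exact Or.inl h
  have hsat : ∀ q ∈ chartAt (E d) x₀ '' (O ∩ K'ᶜ), ContDiffAt ℝ ∞ s' q := fun q hq =>
    (hs'.mono hsub).contDiffAt (himg.mem_nhds hq)
  refine ⟨?_, ?_, h3, h4⟩
  · intro U φ hU hφ hφK p hp
    by_cases hpO : φ p ∈ O
    · obtain ⟨h1, h2⟩ := keyA U φ hU hφ p hp hpO
      have h5 : ContDiffAt ℝ ∞ (fun p => (s' ((chartAt (E d) x₀ ∘ φ) p),
          fderiv ℝ (chartAt (E d) x₀ ∘ φ) p)) p :=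
        ((hsat _ ⟨φ p, ⟨hpO, hφK p hp⟩, rfl⟩).comp p h1).prodMk (h1.fderiv_right (by simp))
      have h6 : ContDiffAt ℝ ∞ (fun p => (s' ((chartAt (E d) x₀ ∘ φ) p)).compContinuousLinearMap
          (fderiv ℝ (chartAt (E d) x₀ ∘ φ) p)) p :=
        Pool.Agent.Y604.SY.contDiff_pull.contDiffAt.comp p h5
      exact (h6.congr_of_eventuallyEq h2).contDiffWithinAt
    · obtain ⟨h1, _, h2⟩ := keyB U φ hU hφ hφK p hp hpO
      exact (h1.congr_of_eventuallyEq h2).contDiffWithinAt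
  · intro U φ hU hφ hφK p hp
    by_cases hpO : φ p ∈ O
    · obtain ⟨h1, h2⟩ := keyA U φ hU hφ p hp hpO
      have hq : (chartAt (E d) x₀ ∘ φ) p ∈ chartAt (E d) x₀ '' (O ∩ K'ᶜ) :=
        ⟨φ p, ⟨hpO, hφK p hp⟩, rfl⟩
      have h5 : ContDiffAt ℝ ∞ s' ((chartAt (E d) x₀ ∘ φ) p) := hsat _ hq
      have h6 : extDeriv s' ((chartAt (E d) x₀ ∘ φ) p) = 0 := hds' _ (hsub hq)
      rw [h2.extDeriv_eq, extDeriv_pullback (r := ∞) (h5.differentiableAt (by simp)) h1 (by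
          rw [minSmoothness_of_isRCLikeNormedField]
          exact WithTop.coe_le_coe.2 le_top), h6]
      ext v
      rfl
    · obtain ⟨_, h1, h2⟩ := keyB U φ hU hφ hφK p hp hpO
      rw [h2.extDeriv_eq, h1]

end Pool.Agent.Y949.SY
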